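import Pool.Agent.Y600.FB.Stm

/-!
The machines with `K` modes (helper454, job FB-CLOCK; adaptation of `H593R3/FBC/Prog.lean`).
-/

set_option autoImplicit false

namespace Pool.Agent.Y454.FB

open Function
open Pool.Agent.H593R3.FBC Pool.Agent.Y600.FB
open Pool.Agent.Helper707.Prog (Cmd Exec)
open Pool.Agent.Helper707.Flat (sx code len IsAt sim search prog up_g up_k length_code halting_iff)

theorem machK_ok (P : List FIns) (K : ℕ) (hK : 0 < K) (S : ℕ → Bool) : (machK P K S).OK := by
  have hlt : ∀ t q : ℕ, t < bdP P → K * t + q % K < K * bdP P := by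
    intro t q ht
    have h1 := Nat.mod_lt q hK
    calc K * t + q % K < K * t + K := by omega
      _ = K * (t + 1) := by ring
      _ ≤ K * bdP P := Nat.mul_le_mul_left _ ht
  have hb : 0 < bdP P := by unfold bdP; omega
  refine ⟨Nat.mul_pos hK hb, hb, fun q _ => ?_⟩
  simp only [machK]
  cases h : P[q / K]? with
  | none =>
    simp only [InsOK]
    exact (Nat.mod_lt _ hK).trans_le (Nat.le_mul_of_pos_right _ hb)
  | some a =>
    have h1 := bdI_lt h
    cases a with
    | inc r t =>
      simp only [bdI] at h1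
      simp only [InsOK]
      exact ⟨by omega, hlt t q (by omega)⟩
    | dec r t t' =>
      simp only [bdI] at h1
      simp only [InsOK]
      exact ⟨by omega, hlt t q (by omega), hlt t' q (by omega)⟩
    | jmp t =>
      simp only [bdI] at h1
      simp only [InsOK]
      exact hlt t q (by omega)

theorem div_K {K b : ℕ} (hb : b < K) (c : ℕ) : (K * c + b) / K = c := by
  rw [Nat.mul_add_div (by omega), Nat.div_eq_of_lt hb, add_zero]

theorem mod_K {K b : ℕ} (hb : b < K) (c : ℕ) : (K * c + b) % K = b := by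
  rw [Nat.mul_add_mod, Nat.mod_eq_of_lt hb]

theorem machK_step {P : List FIns} {c : ℕ × (ℕ → ℕ)} (h : P[c.1]? ≠ none) {K b : ℕ} (hb : b < K)
    (S : ℕ → Bool) (t : ℕ) :
    (machK P K S).step t (K * c.1 + b, c.2) = (K * (fstep P c).1 + b, (fstep P c).2) := by
  have e1 := div_K hb c.1
  have e2 := mod_K hb c.1
  unfold Mach.step fstep Pool.Agent.Helper707.Flat.step
  simp only [machK, e1, e2]
  cases h' : P[c.1]? with
  | none => exact absurd h' h
  | some a =>
    cases a with
    | inc r t => rfl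
    | dec r t t' =>
      simp only
      split_ifs <;> rfl
    | jmp t => rfl

theorem machK_reset {P : List FIns} {c : ℕ × (ℕ → ℕ)} (h : P[c.1]? = none) {K b : ℕ} (hb : b < K)
    (S : ℕ → Bool) (t : ℕ) :
    (machK P K S).step t (K * c.1 + b, c.2) = ((b + 1) % K, sx t 0 0) := by
  have e1 := div_K hb c.1
  have e2 := mod_K hb c.1
  unfold Mach.step
  simp only [machK, e1, e2, h]
  refine Prod.ext rfl ?_
  funext k
  simp only [sx]
  split_ifs <;> rfl

theorem phaseK {P : List FIns} {H x : ℕ} (h1 : ∀ i < H, P[((fstep P)^[i] (0, sx x 0 0)).1]? ≠ none)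
    (h2 : P[((fstep P)^[H] (0, sx x 0 0)).1]? = none) {K : ℕ} {S : ℕ → Bool} {T b : ℕ}
    (hb : b < K) (hT : (machK P K S).run T = (b, sx x 0 0)) :
    (∀ i ≤ H, (machK P K S).flag (T + i) = S b) ∧
      (machK P K S).run (T + H + 1) = ((b + 1) % K, sx (T + H) 0 0) := by
  have hrun : ∀ i ≤ H, (machK P K S).run (T + i) =
      (K * ((fstep P)^[i] (0, sx x 0 0)).1 + b, ((fstep P)^[i] (0, sx x 0 0)).2) := by
    intro i
    induction i with
    | zero =>
      intro _
      rw [add_zero, hT]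
      simp
    | succ i ih =>
      intro hi
      rw [← add_assoc]
      change (machK P K S).step (T + i) ((machK P K S).run (T + i)) = _
      rw [ih (by omega), machK_step (h1 i (by omega)) hb]
      simp only [iterate_succ_apply']
  constructor
  · intro i hi
    unfold Mach.flag Mach.lab
    rw [hrun i hi]
    simp only [machK]
    rw [mod_K hb]
  · change (machK P K S).step (T + H) ((machK P K S).run (T + H)) = _
    rw [hrun _ le_rfl]
    exact machK_reset h2 hb S _

section

variable {f : List.Vector ℕ 2 → ℕ} {body : Cmd}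

theorem halts (hb : ∀ x k : ℕ, Exec body (sx x k 0)
      (sx x (k + 1) (if f (k ::ᵥ x ::ᵥ List.Vector.nil) = 0 then 0 else 1)))
    (hf : ∀ x, ∃ k, f (k ::ᵥ x ::ᵥ List.Vector.nil) = 0) (x : ℕ) :
    ∃ H N, f (N ::ᵥ x ::ᵥ List.Vector.nil) = 0 ∧ N ≤ H ∧
      (∀ i < H, (code (prog body) 0)[((fstep (code (prog body) 0))^[i] (0, sx x 0 0)).1]? ≠ none) ∧
      (code (prog body) 0)[((fstep (code (prog body) 0))^[H] (0, sx x 0 0)).1]? = none := by
  classical
  set P := code (prog body) 0 with hP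
  obtain ⟨t₀, ht₀⟩ := (halting_iff hb x).1 (hf x)
  have hex : ∃ i, P[((fstep P)^[i] (0, sx x 0 0)).1]? = none := by
    refine ⟨t₀, ?_⟩
    rw [List.getElem?_eq_none_iff]
    change P.length ≤ ((Pool.Agent.Helper707.Flat.step P)^[t₀] (0, sx x 0 0)).1
    rw [ht₀, hP, length_code]
  refine ⟨Nat.find hex, Nat.find (hf x), Nat.find_spec (hf x), ?_,
    fun i hi => Nat.find_min hex hi, Nat.find_spec hex⟩
  obtain ⟨t, ht, e⟩ := heads hb x (Nat.find (hf x)) (fun i hi => Nat.find_min (hf x) hi)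
  by_contra hcon
  have h1 : Nat.find hex ≤ t := by omega
  obtain ⟨d, rfl⟩ : ∃ d, t = d + Nat.find hex := ⟨t - Nat.find hex, by omega⟩
  have h2 := Nat.find_spec hex
  rw [iterate_add_apply, iterate_fixed] at e
  · change (fstep P)^[Nat.find hex] (0, sx x 0 0) = _ at e
    rw [e] at h2
    have hlen : P.length = 1 + (len body + 2) := by
      rw [hP, length_code]
      simp [prog, len]
    rw [List.getElem?_eq_none_iff] at h2
    simp only at h2
    omega
  · change fstep P ((fstep P)^[Nat.find hex] (0, sx x 0 0)) = _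
    unfold fstep Pool.Agent.Helper707.Flat.step
    change (match P[((fstep P)^[Nat.find hex] (0, sx x 0 0)).1]? with
      | some (.inc r t) => _
      | some (.dec r t t') => _
      | some (.jmp t) => _
      | none => _) = _
    rw [h2]

end

/-- the times of the new starts -/
def XX (H : ℕ → ℕ) : ℕ → ℕ
  | 0 => H 0
  | p + 1 => XX H p + 1 + H (XX H p)

theorem le_XX (H : ℕ → ℕ) (p : ℕ) : p ≤ XX H p := by
  induction p with
  | zero => exact Nat.zero_le _
  | succ p ih =>
    change p + 1 ≤ XX H p + 1 + H (XX H p)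
    omega

theorem XX_lt (H : ℕ → ℕ) (p : ℕ) : XX H p < XX H (p + 1) := by
  change XX H p < XX H p + 1 + H (XX H p)
  omega

theorem XX_mono (H : ℕ → ℕ) : StrictMono (XX H) := strictMono_nat_of_lt_succ (XX_lt H)

theorem ex_ph (H : ℕ → ℕ) (n : ℕ) : ∃ p, n ≤ XX H p := ⟨n, le_XX H n⟩

/-- the number of the phase -/
def ph (H : ℕ → ℕ) (n : ℕ) : ℕ := Nat.find (ex_ph H n)

theorem ph_succ (H : ℕ → ℕ) (n p : ℕ) (h1 : XX H p + 1 ≤ n) (h2 : n ≤ XX H (p + 1)) :
    ph H n = p + 1 := by
  apply le_antisymm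
  · exact Nat.find_min' _ h2
  · by_contra hc
    have h3 : ph H n ≤ p := by omega
    have h4 : n ≤ XX H (ph H n) := Nat.find_spec (ex_ph H n)
    have h5 := (XX_mono H).monotone h3
    omega

theorem runXX {P : List FIns} {H : ℕ → ℕ}
    (h1 : ∀ x, ∀ i < H x, P[((fstep P)^[i] (0, sx x 0 0)).1]? ≠ none)
    (h2 : ∀ x, P[((fstep P)^[H x] (0, sx x 0 0)).1]? = none) {K : ℕ} (hK : 0 < K)
    (S : ℕ → Bool) (p : ℕ) :
    (machK P K S).run (XX H p + 1) = ((p + 1) % K, sx (XX H p) 0 0) := by
  induction p with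
  | zero =>
    have h := (phaseK (h1 0) (h2 0) (K := K) (S := S) (T := 0) (b := 0) hK (by
      refine Prod.ext rfl ?_
      funext k
      simp [Mach.run, sx])).2
    rw [Nat.zero_add] at h
    exact h
  | succ p ih =>
    have h := (phaseK (h1 _) (h2 _) (Nat.mod_lt _ hK) ih).2
    rw [Nat.mod_add_mod] at h
    exact h

theorem flagXX {P : List FIns} {H : ℕ → ℕ}
    (h1 : ∀ x, ∀ i < H x, P[((fstep P)^[i] (0, sx x 0 0)).1]? ≠ none)
    (h2 : ∀ x, P[((fstep P)^[H x] (0, sx x 0 0)).1]? = none) {K : ℕ} (hK : 0 < K)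
    (S : ℕ → Bool) (n : ℕ) : (machK P K S).flag n = S (ph H n % K) := by
  have hs : n ≤ XX H (ph H n) := Nat.find_spec (ex_ph H n)
  cases hp : ph H n with
  | zero =>
    rw [hp] at hs
    have h := (phaseK (h1 0) (h2 0) (K := K) (S := S) (T := 0) (b := 0) hK (by
      refine Prod.ext rfl ?_
      funext k
      simp [Mach.run, sx])).1 n hs
    rw [Nat.zero_add] at h
    rw [h, Nat.zero_mod]
  | succ p =>
    rw [hp] at hs
    have hm : ¬ n ≤ XX H p := Nat.find_min (ex_ph H n) (m := p) (by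
      change p < ph H n
      omega)
    have h := (phaseK (h1 _) (h2 _) (Nat.mod_lt _ hK) (runXX h1 h2 hK S p)).1
      (n - (XX H p + 1)) (by
        change n ≤ XX H p + 1 + H (XX H p) at hs
        omega)
    rw [show XX H p + 1 + (n - (XX H p + 1)) = n by omega] at h
    exact h

theorem t_CLOCK : S_CLOCK := by
  classical
  intro G hG hGex
  have h1 : Primrec₂ (fun k x : ℕ => if G (x + 1) k then 0 else 1) := by
    have h2 : PrimrecPred (fun p : ℕ × ℕ => G (p.2 + 1) p.1) :=
      hG.comp (Primrec.succ.comp Primrec.snd) Primrec.fst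
    exact Primrec.ite h2 (Primrec.const 0) (Primrec.const 1)
  set F : List.Vector ℕ 2 → ℕ := fun v => if G (v.tail.head + 1) v.head then 0 else 1 with hF
  have h3 : Nat.Primrec' F := Nat.Primrec'.prim_iff₂.2 h1
  obtain ⟨body, hb⟩ := search h3
  have hiff : ∀ x k : ℕ, F (k ::ᵥ x ::ᵥ List.Vector.nil) = 0 ↔ G (x + 1) k := by
    intro x k
    simp [hF]
  have hex : ∀ x, ∃ k, F (k ::ᵥ x ::ᵥ List.Vector.nil) = 0 := by
    intro x
    obtain ⟨N, hN⟩ := hGex (x + 1)
    exact ⟨N, (hiff x N).2 hN⟩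
  choose H N hN hNH e1 e2 using fun x => halts hb hex x
  refine ⟨code (prog body) 0, ph H, fun p => ?_, fun K hK S =>
    ⟨machK_ok _ K hK S, fun n => flagXX e1 e2 hK S n⟩⟩
  refine ⟨XX H p + 1, N (XX H p), ?_, (hiff _ _).1 (hN _), fun n hn hnN => ?_⟩
  · have := le_XX H p
    omega
  · refine ph_succ H n p hn ?_
    change n ≤ XX H p + 1 + H (XX H p)
    have := hNH (XX H p)
    omega

end Pool.Agent.Y454.FB
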